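import Pool.Agent.Q16.SubTop

/-!
# Composition of an open homomorphism with a semitopological isomorphism
-/

open Topology Filter Set Equiv

noncomputable section

namespace Q16.Semitop

abbrev S3 : Type := Perm (Fin 3)

/-- The direct sum of countably many copies of the symmetric group on three letters. -/
def K0 : Subgroup (ℕ → S3) where
  carrier := {k | ∃ N, ∀ m ≥ N, k m = 1}
  one_mem' := ⟨0, fun _ _ => rfl⟩
  mul_mem' := by
    rintro a b ⟨N, hN⟩ ⟨M, hM⟩
    refine ⟨max N M, fun m hm => ?_⟩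
    rw [Pi.mul_apply, hN m (le_trans (le_max_left _ _) hm), hM m (le_trans (le_max_right _ _) hm),
      one_mul]
  inv_mem' := by
    rintro a ⟨N, hN⟩
    refine ⟨N, fun m hm => ?_⟩
    rw [Pi.inv_apply, hN m hm, inv_one]

/-- The direct sum, to carry the discrete topology. -/
def K : Type := K0
/-- The direct sum, to carry the coarser topology. -/
def H : Type := K0

instance : Group K := inferInstanceAs (Group K0)
instance : Group H := inferInstanceAs (Group K0)

def K.fn (k : K) : ℕ → S3 := Subtype.val (p := (· ∈ K0)) k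
def H.fn (k : H) : ℕ → S3 := Subtype.val (p := (· ∈ K0)) k

theorem K.ext' {a b : K} (h : ∀ m, a.fn m = b.fn m) : a = b := Subtype.ext (funext h)
theorem H.ext' {a b : H} (h : ∀ m, a.fn m = b.fn m) : a = b := Subtype.ext (funext h)

theorem K.fn_mul (a b : K) (m : ℕ) : (a * b).fn m = a.fn m * b.fn m := rfl
theorem K.fn_inv (a : K) (m : ℕ) : (a⁻¹).fn m = (a.fn m)⁻¹ := rfl
theorem K.fn_one (m : ℕ) : (1 : K).fn m = 1 := rfl
theorem H.fn_mul (a b : H) (m : ℕ) : (a * b).fn m = a.fn m * b.fn m := rfl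
theorem H.fn_inv (a : H) (m : ℕ) : (a⁻¹).fn m = (a.fn m)⁻¹ := rfl
theorem H.fn_one (m : ℕ) : (1 : H).fn m = 1 := rfl

theorem K.exists_bound (a : K) : ∃ N, ∀ m ≥ N, a.fn m = 1 := Subtype.prop (p := (· ∈ K0)) a

/-- The identity map. -/
def f2 : K →* H := MonoidHom.id K0

theorem f2_fn (k : K) (m : ℕ) : (f2 k).fn m = k.fn m := rfl

def V (n : ℕ) : Subgroup H where
  carrier := {k | ∀ m < n, k.fn m = 1}
  one_mem' := fun _ _ => rfl
  mul_mem' := by
    intro a b ha hb m hm
    rw [H.fn_mul, ha m hm, hb m hm, one_mul]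
  inv_mem' := by
    intro a ha m hm
    rw [H.fn_inv, ha m hm, inv_one]

def SH : SubBasis H ℕ where
  V := V
  i₀ := 0
  dir i j := ⟨max i j, fun _ hg m hm => hg m (lt_of_lt_of_le hm (le_max_left _ _)),
    fun _ hg m hm => hg m (lt_of_lt_of_le hm (le_max_right _ _))⟩
  conj i g := ⟨i, fun _ hx m hm => by
    rw [H.fn_mul, H.fn_mul, H.fn_inv, hx m hm, mul_one, mul_inv_cancel]⟩

instance : TopologicalSpace K := ⊥
instance : DiscreteTopology K := ⟨rfl⟩
instance : TopologicalSpace H := SH.topology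
instance : IsTopologicalGroup H := SH.isTopologicalGroup
instance : T2Space H := SH.t2Space fun x hx => H.ext' fun m => hx (m + 1) m (Nat.lt_succ_self m)

/-- The big group for `f2`. -/
def KK : Type := K × K

instance : Group KK := inferInstanceAs (Group (K × K))

def W (n : ℕ) : Subgroup KK where
  carrier := {p | p.1 = p.2 ∧ ∀ m < n, K.fn p.1 m = 1}
  one_mem' := ⟨rfl, fun _ _ => rfl⟩
  mul_mem' := by
    rintro a b ⟨ha, ha'⟩ ⟨hb, hb'⟩
    refine ⟨?_, fun m hm => ?_⟩
    · change a.1 * b.1 = a.2 * b.2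
      rw [ha, hb]
    · change K.fn (a.1 * b.1) m = 1
      rw [K.fn_mul, ha' m hm, hb' m hm, one_mul]
  inv_mem' := by
    rintro a ⟨ha, ha'⟩
    refine ⟨?_, fun m hm => ?_⟩
    · change a.1⁻¹ = a.2⁻¹
      rw [ha]
    · change K.fn (a.1⁻¹) m = 1
      rw [K.fn_inv, ha' m hm, inv_one]

def SKK : SubBasis KK ℕ where
  V := W
  i₀ := 0
  dir i j := ⟨max i j, fun _ hg => ⟨hg.1, fun m hm => hg.2 m (lt_of_lt_of_le hm (le_max_left _ _))⟩,
    fun _ hg => ⟨hg.1, fun m hm => hg.2 m (lt_of_lt_of_le hm (le_max_right _ _))⟩⟩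
  conj i g := by
    obtain ⟨N, hN⟩ := K.exists_bound g.1
    obtain ⟨M, hM⟩ := K.exists_bound g.2
    refine ⟨max i (max N M), ?_⟩
    rintro ⟨x, y⟩ ⟨hx, hx'⟩
    change x = y at hx
    subst hx
    have key : ∀ (a : K) (R : ℕ), (∀ m ≥ R, a.fn m = 1) → R ≤ max i (max N M) →
        a * x * a⁻¹ = x := by
      intro a R hR hle
      apply K.ext'
      intro m
      rw [K.fn_mul, K.fn_mul, K.fn_inv]
      by_cases hm : m < R
      · have h1 : x.fn m = 1 := hx' m (lt_of_lt_of_le hm hle)
        rw [h1, mul_one, mul_inv_cancel]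
      · rw [hR m (not_lt.1 hm), inv_one, one_mul, mul_one]
    have k1 := key g.1 N hN (le_trans (le_max_left _ _) (le_max_right _ _))
    have k2 := key g.2 M hM (le_trans (le_max_right _ _) (le_max_right _ _))
    constructor
    · change g.1 * x * g.1⁻¹ = g.2 * x * g.2⁻¹
      rw [k1, k2]
    · intro m hm
      change K.fn (g.1 * x * g.1⁻¹) m = 1
      rw [k1]
      exact hx' m (lt_of_lt_of_le hm (le_max_left _ _))

instance : TopologicalSpace KK := SKK.topology
instance : IsTopologicalGroup KK := SKK.isTopologicalGroup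

def ιK : K →* KK := MonoidHom.inl K K
def FK : KK →* H := f2.comp (MonoidHom.fst K K)

theorem ιK_injective : Function.Injective ιK := fun _ _ h => (Prod.ext_iff.1 h).1

theorem ιK_normal : ιK.range.Normal := by
  constructor
  rintro _ ⟨x, rfl⟩ g
  refine ⟨g.1 * x * g.1⁻¹, ?_⟩
  apply Prod.ext
  · rfl
  · change (1 : K) = g.2 * 1 * g.2⁻¹
    rw [mul_one, mul_inv_cancel]

theorem ιK_inducing : IsInducing ιK := by
  rw [isInducing_iff_nhds]
  intro x
  rw [nhds_discrete]
  apply le_antisymm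
  · rw [← map_le_iff_le_comap, map_pure]
    exact pure_le_nhds _
  · intro s hs
    rw [mem_pure] at hs
    have h1 : (W 0 : Set KK) ∈ 𝓝 (1 : KK) := SKK.mem_nhds_one.2 ⟨0, Subset.rfl⟩
    have h2 : (fun y => ιK x * y) '' (W 0 : Set KK) ∈ 𝓝 (ιK x) := by
      have := image_mem_map (m := fun y => ιK x * y) h1
      rwa [map_mul_left_nhds_one] at this
    refine ⟨_, h2, ?_⟩
    rintro y ⟨⟨a, b⟩, ⟨hab, _⟩, h⟩
    change a = b at hab
    subst hab
    have h3 : x * a = y := (Prod.ext_iff.1 h).1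
    have h4 : (1 : K) * a = 1 := (Prod.ext_iff.1 h).2
    rw [one_mul] at h4
    rw [← h3, h4, mul_one]
    exact hs

theorem FK_continuous : Continuous FK := by
  apply SKK.continuous_hom SH
  intro n
  exact ⟨n, fun x hx m hm => hx.2 m hm⟩

theorem FK_open : IsOpenMap FK := by
  apply SKK.isOpenMap_hom SH
  intro n
  refine ⟨n, fun y hy => ?_⟩
  exact ⟨((y : K), (y : K)), ⟨rfl, fun m hm => hy m hm⟩, rfl⟩

theorem f2_bijective : Function.Bijective f2 := Function.bijective_id

theorem f2_continuous : Continuous f2 := continuous_of_discreteTopology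

/-! ### The group `G` -/

/-- The module. -/
abbrev N : Type := ℕ → Fin 3 → Multiplicative (ZMod 2)

/-- The action on the module. -/
def φ : K →* MulAut N where
  toFun k :=
    { toFun := fun a m i => a m ((k.fn m)⁻¹ i)
      invFun := fun a m i => a m (k.fn m i)
      left_inv := fun a => by
        funext m i
        change a m ((k.fn m).symm (k.fn m i)) = a m i
        rw [Equiv.symm_apply_apply]
      right_inv := fun a => by
        funext m i
        change a m (k.fn m ((k.fn m).symm i)) = a m i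
        rw [Equiv.apply_symm_apply]
      map_mul' := fun _ _ => rfl }
  map_one' := rfl
  map_mul' a b := by
    apply MulEquiv.ext
    intro x
    funext m i
    change x m ((a.fn m * b.fn m)⁻¹ i) = x m ((b.fn m)⁻¹ ((a.fn m)⁻¹ i))
    rw [mul_inv_rev]
    rfl

theorem φ_apply (k : K) (a : N) (m : ℕ) (i : Fin 3) : φ k a m i = a m ((k.fn m)⁻¹ i) := rfl

/-- The group `G`. -/
def G : Type := N ⋊[φ] K

instance : Group G := inferInstanceAs (Group (N ⋊[φ] K))
instance : TopologicalSpace G := ⊥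
instance : DiscreteTopology G := ⟨rfl⟩

def inl : N →* G := SemidirectProduct.inl (φ := φ)
def inr : K →* G := SemidirectProduct.inr (φ := φ)
def f1 : G →* K := SemidirectProduct.rightHom (φ := φ)

theorem f1_inl (n : N) : f1 (inl n) = 1 := SemidirectProduct.rightHom_inl n
theorem f1_inr (k : K) : f1 (inr k) = k := SemidirectProduct.rightHom_inr k
theorem inl_aut (k : K) (n : N) : inl (φ k n) = inr k * inl n * inr k⁻¹ :=
  SemidirectProduct.inl_aut k n
theorem exists_inl {g : G} (h : f1 g = 1) : ∃ n, inl n = g := by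
  have : g ∈ (SemidirectProduct.rightHom (φ := φ)).ker := h
  rw [← SemidirectProduct.range_inl_eq_ker_rightHom] at this
  exact this

theorem inl_injective : Function.Injective inl := SemidirectProduct.inl_injective

theorem f1_surjective : Function.Surjective f1 := SemidirectProduct.rightHom_surjective
theorem f1_continuous : Continuous f1 := continuous_of_discreteTopology
theorem f1_open : IsOpenMap f1 := fun _ _ => isOpen_discrete _

/-- A single coordinate. -/
def single (n : ℕ) (σ : S3) : K := ⟨Pi.mulSingle n σ, n + 1, fun m hm => by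
  rw [Pi.mulSingle_eq_of_ne (by omega)]⟩

theorem single_same (n : ℕ) (σ : S3) : (single n σ).fn n = σ :=
  Pi.mulSingle_eq_same (M := fun _ => S3) n σ
theorem single_ne {n m : ℕ} (h : m ≠ n) (σ : S3) : (single n σ).fn m = 1 :=
  Pi.mulSingle_eq_of_ne (M := fun _ => S3) h σ

/-- The vector `e_0` in every coordinate. -/
def x0 : N := fun _ i => if i = 0 then Multiplicative.ofAdd 1 else 1

theorem fix (n : ℕ) : φ (single n (swap 1 2)) x0 = x0 := by
  funext m i
  rw [φ_apply]
  by_cases h : m = n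
  · subst h
    rw [single_same, swap_inv]
    fin_cases i <;> simp [x0, swap_apply_def]
  · rw [single_ne h, inv_one]
    rfl

theorem not_fix (n : ℕ) : φ (single n (swap 1 2)) (φ (single n (swap 0 1))⁻¹ x0) ≠
    φ (single n (swap 0 1))⁻¹ x0 := by
  intro h
  have h1 := congrFun (congrFun h n) 1
  rw [φ_apply, φ_apply, φ_apply, single_same, K.fn_inv, single_same, inv_inv, swap_inv] at h1
  have h2 : (1 : Multiplicative (ZMod 2)) = Multiplicative.ofAdd 1 := by
    simpa [x0, swap_apply_def] using h1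
  exact absurd h2 (by decide)

universe v

theorem not_semitop (E : Type v) [Group E] [TopologicalSpace E] [IsTopologicalGroup E]
    (ι : G →* E) (F : E →* H) (hinj : Function.Injective ι) (hnorm : ι.range.Normal)
    (hind : IsInducing ι) (hopen : IsOpenMap F)
    (hF : ∀ g, F (ι g) = f2 (f1 g)) : False := by
  -- a neighbourhood of `1` meeting `G` trivially
  obtain ⟨U, hU, hU1⟩ := hind.isOpen_iff.1 (isOpen_discrete ({1} : Set G))
  have h1U : (1 : E) ∈ U := by
    have : (1 : G) ∈ ι ⁻¹' U := by rw [hU1]; rfl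
    simpa using this
  let x : G := inl x0
  have hcont : Continuous (fun y : E => y * ι x * y⁻¹ * (ι x)⁻¹) := by fun_prop
  let A : Set E := (fun y : E => y * ι x * y⁻¹ * (ι x)⁻¹) ⁻¹' U
  have hA : A ∈ 𝓝 (1 : E) := by
    apply (hU.preimage hcont).mem_nhds
    change 1 * ι x * 1⁻¹ * (ι x)⁻¹ ∈ U
    simpa using h1U
  have hAc : ∀ y ∈ A, y * ι x * y⁻¹ = ι x := by
    intro y hy
    obtain ⟨z, hz⟩ := hnorm.conj_mem (ι x) ⟨x, rfl⟩ y
    have h2 : ι (z * x⁻¹) ∈ U := by
      rw [map_mul, map_inv, hz]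
      exact hy
    have h3 : z * x⁻¹ ∈ ι ⁻¹' U := h2
    rw [hU1] at h3
    have h4 : z = x := mul_inv_eq_one.1 h3
    rw [← hz, h4]
  have hFA : F '' A ∈ 𝓝 (1 : H) := by
    have := hopen.image_mem_nhds hA
    rwa [map_one] at this
  obtain ⟨n, hn⟩ := SH.mem_nhds_one.1 hFA
  let h : K := single n (swap 0 1)
  let l : K := single n (swap 1 2)
  have hV : f2 h ∈ V n := by
    intro m hm
    rw [f2_fn]
    exact single_ne (by omega) _
  obtain ⟨u, huA, hu⟩ := hn hV
  let g : G := inr h
  let k : E := (ι g)⁻¹ * u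
  have hFk : F k = 1 := by
    simp only [k, map_mul, map_inv, hF, hu, g, f1_inr]
    exact inv_mul_cancel _
  have hu2 : u = ι g * k := by simp [k]
  -- conjugation by k sends ι x to ι (g⁻¹ x g)
  have hkx : k * ι x * k⁻¹ = ι (g⁻¹ * x * g) := by
    have h5 := hAc u huA
    rw [hu2] at h5
    have h6 : k * ι x * k⁻¹ = (ι g)⁻¹ * (ι g * k * ι x * (ι g * k)⁻¹) * ι g := by group
    rw [h6, h5, map_mul, map_mul, map_inv]
  let y : G := inr l
  have hyx : y * x * y⁻¹ = x := by
    simp only [y, x]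
    rw [← map_inv, ← inl_aut, fix]
  -- conjugation by k moves y inside its coset of N
  obtain ⟨y', hy'⟩ := hnorm.conj_mem (ι y) ⟨y, rfl⟩ k
  have hc : f1 (y' * y⁻¹) = 1 := by
    apply f2_bijective.1
    rw [map_mul, map_mul, map_inv, map_inv, ← hF, ← hF, hy', map_one]
    simp [hFk]
  obtain ⟨c, hc⟩ := exists_inl hc
  have hy'2 : y' = inl c * y := by rw [hc]; group
  have hgx : g⁻¹ * x * g = inl (φ h⁻¹ x0) := by
    rw [inl_aut]
    simp only [g, x, map_inv, inv_inv]
  have hygx : y * (g⁻¹ * x * g) * y⁻¹ = inl (φ l (φ h⁻¹ x0)) := by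
    rw [hgx, inl_aut l]
    simp only [y, map_inv]
  have hfinal : ι (y' * (g⁻¹ * x * g) * y'⁻¹) = ι (g⁻¹ * x * g) := by
    rw [map_mul, map_mul, map_inv, hy', ← hkx]
    have : ι x = ι y * ι x * (ι y)⁻¹ := by rw [← map_mul, ← map_inv, ← map_mul, hyx]
    conv_rhs => rw [this]
    group
  have h7 := hinj hfinal
  rw [hy'2] at h7
  have h8 : inl c * y * (g⁻¹ * x * g) * (inl c * y)⁻¹ =
      inl c * (y * (g⁻¹ * x * g) * y⁻¹) * (inl c)⁻¹ := by group
  rw [h8, hygx, hgx, ← map_inv, ← map_mul, ← map_mul, mul_inv_cancel_comm] at h7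
  exact not_fix n (inl_injective h7)

end Q16.Semitop
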